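import Pool.Agent.Lib_helper11.TD.Lin

/-!
# Block TD6 (MP_97f789_ag, Theorem D)
-/

set_option autoImplicit false

namespace Pool.Agent.TD

/-- Determinants of symmetric tridiagonal matrices with diagonal `2` and squares `1` beside it. -/
theorem td6_ring {R : Type*} [CommRing R] : ∀ (r : ℕ) (A : Matrix (Fin r) (Fin r) R),
    (∀ i, A i i = 2) → (∀ i j, A i j = A j i) →
    (∀ i j : Fin r, (i : ℕ) + 1 = j → A i j ^ 2 = 1) →
    (∀ i j : Fin r, (i : ℕ) + 1 < j → A i j = 0) → A.det = (r : R) + 1
  | 0, A, _, _, _, _ => by simp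
  | 1, A, hd, _, _, _ => by
    rw [Matrix.det_fin_one, hd]
    push_cast
    ring
  | n + 2, A, hd, hs, h1, h0 => by
    have e1 := td6_ring (n + 1) (A.submatrix Fin.succ Fin.succ) (fun i => hd _)
      (fun i j => hs _ _) (fun i j hij => h1 _ _ (by simp only [Fin.val_succ]; omega))
      (fun i j hij => h0 _ _ (by simp only [Fin.val_succ]; omega))
    have e2 := td6_ring n (A.submatrix (fun i => i.succ.succ) (fun i => i.succ.succ))
      (fun i => hd _) (fun i j => hs _ _)
      (fun i j hij => h1 _ _ (by simp only [Fin.val_succ]; omega))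
      (fun i j hij => h0 _ _ (by simp only [Fin.val_succ]; omega))
    have e3 : (A.submatrix Fin.succ (Fin.succAbove (1 : Fin (n + 2)))).det =
        A 1 0 * (A.submatrix (fun i : Fin n => i.succ.succ) (fun i => i.succ.succ)).det := by
      rw [Matrix.det_succ_column_zero, Fin.sum_univ_succ, Finset.sum_eq_zero, add_zero]
      · have e4 : (A.submatrix Fin.succ (Fin.succAbove (1 : Fin (n + 2)))).submatrix
            (Fin.succAbove (0 : Fin (n + 1))) Fin.succ =
            A.submatrix (fun i : Fin n => i.succ.succ) (fun i => i.succ.succ) := by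
          ext i j
          simp only [Matrix.submatrix_apply, Fin.succAbove_zero]
          congr 1
        rw [e4]
        simp [Matrix.submatrix_apply]
      · intro j _
        have e5 : (A.submatrix Fin.succ (Fin.succAbove (1 : Fin (n + 2)))) j.succ 0 = 0 := by
          rw [Matrix.submatrix_apply]
          have : Fin.succAbove (1 : Fin (n + 2)) 0 = 0 := by simp
          rw [this, hs]
          exact h0 _ _ (by simp only [Fin.val_succ, Fin.val_zero]; omega)
        rw [e5]
        ring
    rw [Matrix.det_succ_row_zero, Fin.sum_univ_succ, Fin.sum_univ_succ, Finset.sum_eq_zero,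
      add_zero]
    · have e6 : (Fin.succ (0 : Fin (n + 1))) = (1 : Fin (n + 2)) := rfl
      have e7 : Fin.succAbove (0 : Fin (n + 2)) = Fin.succ := by
        funext i
        rw [Fin.succAbove_zero]
      rw [e6, e7, e1, e3, e2, hd, hs 1 0]
      have e8 := h1 0 1 (by simp)
      push_cast
      simp only [Fin.val_zero, Fin.val_one, pow_zero, pow_one]
      linear_combination (-(n : R) - 1) * e8
    · intro j _
      rw [h0 0 j.succ.succ (by simp only [Fin.val_succ, Fin.val_zero]; omega)]
      ring

variable {p : ℕ} [hp : Fact p.Prime]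

theorem td6_zmod (x : ℤ_[p]) : PadicInt.toZMod x = 0 ↔ ‖x‖ < 1 := by
  rw [← RingHom.mem_ker, PadicInt.ker_toZMod, PadicInt.maximalIdeal_eq_span_p,
    Ideal.mem_span_singleton, ← PadicInt.norm_lt_one_iff_dvd]

/-- TD6: almost tridiagonal matrices modulo `p`. -/
theorem tri_mod {r : ℕ} (A : Matrix (Fin r) (Fin r) ℤ_[p]) (hd : ∀ i, A i i = 2)
    (hs : ∀ i j, A i j = A j i) (h1 : ∀ i j : Fin r, (i : ℕ) + 1 = j → ‖A i j ^ 2 - 1‖ < 1)
    (h0 : ∀ i j : Fin r, (i : ℕ) + 1 < j → ‖A i j‖ < 1) : ‖A.det - ((r : ℤ_[p]) + 1)‖ < 1 := by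
  have e := td6_ring r (A.map (PadicInt.toZMod (p := p))) (fun i => by
      rw [Matrix.map_apply, hd, map_ofNat]) (fun i j => by
      rw [Matrix.map_apply, Matrix.map_apply, hs]) (fun i j hij => by
      have h2 := (td6_zmod _).2 (h1 i j hij)
      rw [map_sub, map_pow, map_one, sub_eq_zero] at h2
      rw [Matrix.map_apply]
      exact h2) (fun i j hij => by
      rw [Matrix.map_apply]
      exact (td6_zmod _).2 (h0 i j hij))
  rw [← td6_zmod, map_sub, RingHom.map_det, map_add, map_natCast, map_one, sub_eq_zero]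
  exact e

end Pool.Agent.TD
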