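import Pool.Agent.Lib_helper11.TD.Lin
import Pool.Agent.Lib_helper11.TD.TD11

/-!
# Block TD12 (MP_97f789_ag, Theorem D)
-/

set_option autoImplicit false

namespace Pool.Agent.TD

variable {k V : Type*} [Field k] [AddCommGroup V] [Module k V]

variable {G : Type*} [Group G]

/-- TD12: the greedy construction (from TD11). -/
theorem td_greedy [FiniteDimensional k V] (h2 : (2 : k) ≠ 0) (ρ : G →* Module.End k V)
    (b : LinearMap.BilinForm k V) (hs : ∀ x y, b x y = b y x)
    (hb : ∀ g x y, b (ρ g x) (ρ g y) = b x y) (Δ : Set V) (h0 : ∀ δ ∈ Δ, b δ δ ≠ 0)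
    (hr : ∀ δ ∈ Δ, ∃ g, ρ g = refl b δ) (H : Subgroup G) [H.Normal]
    (hW : ∀ h ∈ H, ∀ x ∈ Submodule.span k Δ, ρ h x ∈ Submodule.span k Δ)
    (hirr : ∀ U ≤ Submodule.span k Δ, (∀ h ∈ H, ∀ u ∈ U, ρ h u ∈ U) →
      U = ⊥ ∨ U = Submodule.span k Δ)
    (hdim : Even (Module.finrank k (Submodule.span k Δ))) : Good ρ b H (Submodule.span k Δ) := by
  have key : ∀ j : ℕ, 2 * j ≤ Module.finrank k (Submodule.span k Δ) →
      ∃ S ≤ Submodule.span k Δ, Module.finrank k S = 2 * j ∧ Good ρ b H S := by
    intro j
    induction j with
    | zero =>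
      intro _
      refine ⟨⊥, bot_le, by simp, 1, H.one_mem, ?_, ?_⟩
      · intro v
        rw [map_one]
        simp
      · intro v _ s hs0
        rw [(Submodule.mem_bot k).1 hs0]
        simp
    | succ j ih =>
      intro hj
      obtain ⟨S, hSW, hSd, hSG⟩ := ih (by omega)
      -- a vector outside of S
      obtain ⟨δ, hδ, hδS⟩ : ∃ δ ∈ Δ, δ ∉ S := by
        by_contra hc
        push Not at hc
        have h3 : Submodule.span k Δ ≤ S := Submodule.span_le.2 hc
        have h4 := Submodule.finrank_mono h3
        omega
      have hδ0 : δ ≠ 0 := by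
        rintro rfl
        exact hδS S.zero_mem
      -- a conjugate outside of S + k δ
      obtain ⟨h, hh, hhδ⟩ : ∃ h ∈ H, ρ h δ ∉ S ⊔ Submodule.span k {δ} := by
        by_contra hc
        push Not at hc
        obtain ⟨U, hU⟩ : ∃ U : Submodule k V, U = Submodule.span k {w | ∃ h ∈ H, w = ρ h δ} :=
          ⟨_, rfl⟩
        have hUW : U ≤ Submodule.span k Δ := by
          rw [hU, Submodule.span_le]
          rintro w ⟨h, hh, rfl⟩
          exact hW h hh δ (Submodule.subset_span hδ)
        have hUst : ∀ h ∈ H, ∀ u ∈ U, ρ h u ∈ U := by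
          intro h hh u hu
          have h5 : U ≤ U.comap (ρ h) := by
            conv_lhs => rw [hU]
            rw [Submodule.span_le]
            rintro w ⟨h', hh', rfl⟩
            show ρ h (ρ h' δ) ∈ U
            rw [hU]
            refine Submodule.subset_span ⟨h * h', H.mul_mem hh hh', ?_⟩
            rw [map_mul]
            rfl
          exact h5 hu
        have hδU : δ ∈ U := by
          rw [hU]
          refine Submodule.subset_span ⟨1, H.one_mem, ?_⟩
          rw [map_one]
          rfl
        have hUS : U ≤ S ⊔ Submodule.span k {δ} := by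
          rw [hU, Submodule.span_le]
          rintro w ⟨h, hh, rfl⟩
          exact hc h hh
        rcases hirr U hUW hUst with h6 | h6
        · rw [h6, Submodule.mem_bot] at hδU
          exact hδ0 hδU
        · rw [h6] at hUS
          have h7 := Submodule.finrank_mono hUS
          have h8 := Submodule.finrank_add_le_finrank_add_finrank S (Submodule.span k {δ})
          have h9 := finrank_span_singleton (K := k) hδ0
          omega
      have hli : LinearIndependent k ![δ, ρ h δ] := by
        rw [LinearIndependent.pair_iff]
        intro s t hst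
        have ht : t = 0 := by
          by_contra ht
          apply hhδ
          refine Submodule.mem_sup_right ?_
          rw [Submodule.mem_span_singleton]
          refine ⟨-(t⁻¹ * s), ?_⟩
          have : ρ h δ = t⁻¹ • (t • ρ h δ) := by
            rw [smul_smul, inv_mul_cancel₀ ht, one_smul]
          rw [this, eq_neg_of_add_eq_zero_right hst, smul_neg, smul_smul, neg_smul]
        rw [ht, zero_smul, add_zero] at hst
        exact ⟨(smul_eq_zero.1 hst).resolve_right hδ0, ht⟩
      obtain ⟨g, hg⟩ := hr δ hδ
      have hTG := good_pair h2 ρ b hs hb H δ (h0 δ hδ) g hg h hh hli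
      have hdis : Disjoint S (Submodule.span k {δ, ρ h δ}) := by
        rw [Submodule.disjoint_def]
        intro x hxS hxT
        rw [Submodule.mem_span_pair] at hxT
        obtain ⟨s, t, rfl⟩ := hxT
        have ht : t = 0 := by
          by_contra ht
          apply hhδ
          have : ρ h δ = t⁻¹ • (s • δ + t • ρ h δ) + (-(t⁻¹ * s)) • δ := by
            rw [smul_add, smul_smul, smul_smul, inv_mul_cancel₀ ht, one_smul, neg_smul]
            abel
          rw [this]
          exact Submodule.add_mem_sup (S.smul_mem _ hxS)
            (Submodule.smul_mem _ _ (Submodule.mem_span_singleton_self δ))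
        rw [ht, zero_smul, add_zero] at hxS ⊢
        have hs0 : s = 0 := by
          by_contra hs0
          apply hδS
          have : δ = s⁻¹ • (s • δ) := by
            rw [smul_smul, inv_mul_cancel₀ hs0, one_smul]
          rw [this]
          exact S.smul_mem _ hxS
        rw [hs0, zero_smul]
      refine ⟨S ⊔ Submodule.span k {δ, ρ h δ}, ?_, ?_, good_comb ρ b H _ _ hSG hTG hdis⟩
      · refine sup_le hSW ?_
        rw [Submodule.span_le]
        intro x hx
        rcases hx with rfl | hx
        · exact Submodule.subset_span hδ
        · rw [Set.mem_singleton_iff.1 hx]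
          exact hW h hh δ (Submodule.subset_span hδ)
      · have h10 := Submodule.finrank_sup_add_finrank_inf_eq S (Submodule.span k {δ, ρ h δ})
        rw [hdis.eq_bot, finrank_bot] at h10
        have h11 := finrank_span_eq_card hli
        have h12 : Set.range ![δ, ρ h δ] = {δ, ρ h δ} := by
          rw [Matrix.range_cons, Matrix.range_cons, Matrix.range_empty, Set.union_empty]
          rfl
        rw [h12, Fintype.card_fin] at h11
        omega
  obtain ⟨m, hm⟩ := hdim
  obtain ⟨S, hSW, hSd, hSG⟩ := key m (by omega)
  have : S = Submodule.span k Δ := Submodule.eq_of_le_of_finrank_eq hSW (by omega)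
  rw [← this]
  exact hSG

end Pool.Agent.TD
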